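import Pool.Agent.K1H47.Defect.Graph

/-!
Sparse critical graphs for two-part defective colouring: for all `d₁ ≥ 2` and all `d₂` with
`2 d₂ ≥ 3 d₁ + 2`, every `(Δ_{d₁}, Δ_{d₂})`-critical graph satisfies
`e(G) ≥ (2 - α) n(G) + 1 / (d₂ + 1)` with `α = (d₂ + 2) / ((d₁ + 2)(d₂ + 1))`.
-/

namespace Pool.Agent.Results.MP_4006b4_co.CriticalSparse

/-- `G` has a `(Δ_{d₁}, Δ_{d₂})`-colouring: a vertex set `S` such that `G[S]` has maximum degree
at most `d₁` and the graph induced on the complement of `S` has maximum degree at most `d₂`. -/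
def DefColorable {V : Type*} (d₁ d₂ : ℕ) (G : SimpleGraph V) : Prop :=
  ∃ S : Set V, (∀ v ∈ S, (G.neighborSet v ∩ S).ncard ≤ d₁) ∧
    (∀ v ∉ S, (G.neighborSet v \ S).ncard ≤ d₂)

/-- `G` is `(Δ_{d₁}, Δ_{d₂})`-critical: it has no such colouring but every proper subgraph of it
has one. -/
def Critical {V : Type*} (d₁ d₂ : ℕ) (G : SimpleGraph V) : Prop :=
  ¬ DefColorable d₁ d₂ G ∧ ∀ H : G.Subgraph, H ≠ ⊤ → DefColorable d₁ d₂ H.coe

open Pool.Agent.K1H47.Defect Finset

theorem result (d₁ d₂ : ℕ) (h1 : 2 ≤ d₁) (h2 : 3 * d₁ + 2 ≤ 2 * d₂)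
    {V : Type*} [Finite V] (G : SimpleGraph V) (hG : Critical d₁ d₂ G) :
    (2 - ((d₂ : ℝ) + 2) / (((d₁ : ℝ) + 2) * ((d₂ : ℝ) + 1))) * (Nat.card V : ℝ)
      + 1 / ((d₂ : ℝ) + 1) ≤ (G.edgeSet.ncard : ℝ) := by
  classical
  have : Fintype V := Fintype.ofFinite V
  obtain ⟨hno, hsub⟩ := hG
  by_contra hcon
  push Not at hcon
  have hcard : (Nat.card V : ℝ) = (Fintype.card V : ℝ) := by rw [Nat.card_eq_fintype_card]
  have hedges : G.edgeSet.ncard = G.edgeFinset.card := by
    rw [← SimpleGraph.coe_edgeFinset, Set.ncard_coe_finset]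
  rw [hcard, hedges] at hcon
  have hi : (0 : ℝ) < (d₁ : ℝ) + 2 := by positivity
  have hj : (0 : ℝ) < (d₂ : ℝ) + 1 := by positivity
  have hint : ((((d₁ : ℤ) + 2) * ((d₂ : ℤ) + 1)) * (G.edgeFinset.card : ℤ) <
      (2 * (((d₁ : ℤ) + 2) * ((d₂ : ℤ) + 1)) - ((d₂ : ℤ) + 2)) * (Fintype.card V : ℤ) +
        ((d₁ : ℤ) + 2)) := by
    have hreal : ((((d₁ : ℝ) + 2) * ((d₂ : ℝ) + 1)) * (G.edgeFinset.card : ℝ) <
        (2 * (((d₁ : ℝ) + 2) * ((d₂ : ℝ) + 1)) - ((d₂ : ℝ) + 2)) * (Fintype.card V : ℝ) +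
        ((d₁ : ℝ) + 2)) := by
      have h3 := mul_lt_mul_of_pos_left hcon (mul_pos hi hj)
      refine lt_of_lt_of_eq h3 ?_
      field_simp
    exact_mod_cast hreal
  have hprop : ∀ S : Finset V, S ≠ univ → ∃ c : V → Bool, ∀ v ∈ S,
      (S.filter fun w => G.Adj v w ∧ c w = c v).card ≤ if c v = true then d₁ else d₂ := by
    intro S hS
    set H : G.Subgraph := (⊤ : G.Subgraph).induce (S : Set V) with hH
    have hHtop : H ≠ ⊤ := by
      intro h
      apply hS
      have h3 : H.verts = (⊤ : G.Subgraph).verts := by rw [h]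
      have h4 : (S : Set V) = Set.univ := h3
      exact_mod_cast h4
    obtain ⟨S0, hS1, hS2⟩ := hsub H hHtop
    have hverts : ∀ v : V, v ∈ H.verts ↔ v ∈ S := fun v => by
      simp [hH]
    have hadj : ∀ v w : H.verts, H.coe.Adj v w ↔ G.Adj v w := by
      intro v w
      have hv := (hverts v).mp v.2
      have hw := (hverts w).mp w.2
      simp [hH, hv, hw]
    obtain ⟨c, hcv⟩ : ∃ c : V → Bool, ∀ w : V, ∀ hw : w ∈ H.verts,
        (c w = true ↔ (⟨w, hw⟩ : H.verts) ∈ S0) := by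
      refine ⟨fun v => decide (∃ h : v ∈ H.verts, (⟨v, h⟩ : H.verts) ∈ S0), fun w hw => ?_⟩
      rw [decide_eq_true_iff]
      exact ⟨fun ⟨_, h⟩ => h, fun h => ⟨hw, h⟩⟩
    refine ⟨c, fun v hv => ?_⟩
    have hvH : v ∈ H.verts := (hverts v).mpr hv
    have hinj : Set.InjOn (fun w => if h : w ∈ H.verts then (⟨w, h⟩ : H.verts)
        else ⟨v, hvH⟩) (S : Set V) := by
      intro w hw w' hw' heq
      have hwH : w ∈ H.verts := (hverts w).mpr hw
      have hwH' : w' ∈ H.verts := (hverts w').mpr hw'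
      simp only [dif_pos hwH, dif_pos hwH'] at heq
      exact congrArg Subtype.val heq
    have hsubS : ((S.filter fun w => G.Adj v w ∧ c w = c v : Finset V) : Set V) ⊆ (S : Set V) := by
      intro w hw
      rw [Finset.mem_coe, mem_filter] at hw
      exact hw.1
    by_cases hvS : (⟨v, hvH⟩ : H.verts) ∈ S0
    · have hc : c v = true := (hcv v hvH).mpr hvS
      rw [if_pos hc]
      refine le_trans ?_ (hS1 _ hvS)
      rw [← Set.ncard_coe_finset]
      refine Set.ncard_le_ncard_of_injOn (fun w => if h : w ∈ H.verts then (⟨w, h⟩ : H.verts)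
        else ⟨v, hvH⟩) ?_ (hinj.mono hsubS) (Set.toFinite _)
      intro w hw
      rw [Finset.mem_coe, mem_filter] at hw
      obtain ⟨hwS, hadj', hcw⟩ := hw
      have hwH : w ∈ H.verts := (hverts w).mpr hwS
      simp only [dif_pos hwH]
      rw [hc] at hcw
      refine ⟨?_, (hcv w hwH).mp hcw⟩
      rw [SimpleGraph.mem_neighborSet, hadj]
      exact hadj'
    · have hc : c v = false := by
        by_contra h
        exact hvS ((hcv v hvH).mp (by simpa using h))
      rw [if_neg (by rw [hc]; simp)]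
      refine le_trans ?_ (hS2 _ hvS)
      rw [← Set.ncard_coe_finset]
      refine Set.ncard_le_ncard_of_injOn (fun w => if h : w ∈ H.verts then (⟨w, h⟩ : H.verts)
        else ⟨v, hvH⟩) ?_ (hinj.mono hsubS) (Set.toFinite _)
      intro w hw
      rw [Finset.mem_coe, mem_filter] at hw
      obtain ⟨hwS, hadj', hcw⟩ := hw
      have hwH : w ∈ H.verts := (hverts w).mpr hwS
      simp only [dif_pos hwH]
      rw [hc] at hcw
      refine ⟨?_, fun h => ?_⟩
      · rw [SimpleGraph.mem_neighborSet, hadj]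
        exact hadj'
      · rw [(hcv w hwH).mpr h] at hcw
        exact Bool.noConfusion hcw
  obtain ⟨c, hc⟩ := graph_main d₁ d₂ h1 h2 G hprop hint
  refine hno ⟨{v | c v = true}, fun v hv => ?_, fun v hv => ?_⟩
  · have hv' : c v = true := hv
    have h3 := hc v
    rw [if_pos hv'] at h3
    refine le_trans (le_of_eq ?_) h3
    rw [← Set.ncard_coe_finset]
    congr 1
    ext w
    simp [hv']
  · have hv' : c v = false := by
      by_contra h
      exact hv (by simpa using h)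
    have h3 := hc v
    rw [if_neg (by rw [hv']; simp)] at h3
    refine le_trans (le_of_eq ?_) h3
    rw [← Set.ncard_coe_finset]
    congr 1
    ext w
    simp [hv']

end Pool.Agent.Results.MP_4006b4_co.CriticalSparse
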